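import Pool.Agent.H89.X.Spn

/-!
# Constant gradients (row 355)
-/

set_option autoImplicit false

namespace Pool.XK

open Finset Real
open Pool.Agent.H49.Ent Pool.Agent.H32.Dense Pool.STK Pool.KS3 Pool.POLY Pool.DYN
open Pool.BFL (Pb)

/-- Cramer's rule with bounds. -/
theorem cramer_le {c : ℕ} (A : Matrix (Fin c) (Fin c) ℝ) (δ : Fin c → ℝ) {B μ τ : ℝ}
    (hB1 : 1 ≤ B) (hB : ∀ i j, |A i j| ≤ B) (hμ : 0 < μ) (hdet : μ ≤ |A.det|)
    (hr : ∀ a, |∑ b, A a b * δ b| ≤ τ) (i : Fin c) :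
    |δ i| ≤ c * (c.factorial * B ^ c) * τ / μ := by
  classical
  have hτ : 0 ≤ τ := (abs_nonneg _).trans (hr i)
  have hadj : ∀ i j, |A.adjugate i j| ≤ c.factorial * B ^ c := by
    intro i j
    rw [Matrix.adjugate_apply]
    have h1 := Matrix.det_le (A := A.updateRow j (Pi.single i 1)) (abv := AbsoluteValue.abs)
      (x := B) (by
        intro a b
        by_cases h : a = j
        · subst h
          rw [Matrix.updateRow_self]
          by_cases h2 : b = i
          · subst h2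
            simpa using hB1
          · rw [Pi.single_eq_of_ne h2]
            simp only [AbsoluteValue.abs_apply, abs_zero]
            linarith
        · rw [Matrix.updateRow_ne h]
          exact hB a b)
    rw [Fintype.card_fin, nsmul_eq_mul] at h1
    exact h1
  have h1 : A.det * δ i = ∑ a, A.adjugate i a * ∑ b, A a b * δ b := by
    have e1 : (A.adjugate * A).mulVec δ = (A.det • (1 : Matrix (Fin c) (Fin c) ℝ)).mulVec δ := by
      rw [Matrix.adjugate_mul]
    have e2 := congrFun e1 i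
    rw [Matrix.smul_mulVec, Matrix.one_mulVec, Pi.smul_apply, smul_eq_mul,
      ← Matrix.mulVec_mulVec] at e2
    rw [← e2]
    rfl
  rw [le_div_iff₀ hμ]
  calc |δ i| * μ ≤ |δ i| * |A.det| := mul_le_mul_of_nonneg_left hdet (abs_nonneg _)
    _ = |A.det * δ i| := by rw [abs_mul, mul_comm]
    _ = |∑ a, A.adjugate i a * ∑ b, A a b * δ b| := by rw [h1]
    _ ≤ ∑ a, |A.adjugate i a * ∑ b, A a b * δ b| := Finset.abs_sum_le_sum_abs _ _
    _ ≤ ∑ _a : Fin c, (c.factorial * B ^ c) * τ := by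
        refine Finset.sum_le_sum fun a _ => ?_
        rw [abs_mul]
        exact mul_le_mul (hadj i a) (hr a) (abs_nonneg _) (by positivity)
    _ = c * (c.factorial * B ^ c) * τ := by
        rw [Finset.sum_const, Finset.card_univ, Fintype.card_fin, nsmul_eq_mul]
        ring

/-- Cramer's rule for a list with a large determinant. -/
theorem bg_le {𝒱 : Type} {c s L : ℕ} {E : 𝒱 → Fin c → ℝ} {T : Fin L → 𝒱} {B τ : ℝ}
    (hB1 : 1 ≤ B) (hB : ∀ v i, |E v i| ≤ B) (h : BgE s E L c T) (δ : Fin c → ℝ)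
    (hδ : ∀ k, |∑ i, δ i * E (T k) i| ≤ τ) (i : Fin c) :
    |δ i| ≤ c * (c.factorial * B ^ c) * τ * 2 ^ sm s c := by
  classical
  obtain ⟨κ, ρ, h1⟩ := h
  have hpos : (0 : ℝ) < (1 / 2) ^ sm s c := by positivity
  have hinj : Function.Injective ρ := by
    intro b b' hb
    by_contra hne
    have : (Matrix.of fun a b => E (T (κ a)) (ρ b)).det = 0 :=
      Matrix.det_zero_of_column_eq hne fun a => by simp only [Matrix.of_apply, hb]
    rw [this, abs_zero] at h1
    linarith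
  have hbij : Function.Bijective ρ := Finite.injective_iff_bijective.1 hinj
  obtain ⟨b, hb⟩ := hbij.2 i
  have h2 := cramer_le (Matrix.of fun a b => E (T (κ a)) (ρ b)) (fun b => δ (ρ b)) hB1
    (fun a b => hB _ _) hpos h1 (τ := τ) (by
      intro a
      refine le_trans (le_of_eq ?_) (hδ (κ a))
      congr 1
      rw [← hbij.sum_comp (fun i => δ i * E (T (κ a)) i)]
      refine Finset.sum_congr rfl fun b _ => ?_
      simp only [Matrix.of_apply]
      ring) b
  rw [hb] at h2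
  refine h2.trans (le_of_eq ?_)
  rw [div_eq_mul_inv, one_div, inv_pow, inv_inv]

/-- **Constant gradients.** -/
theorem grad_const {Ω : Type} [Fintype Ω] {c : ℕ} (p : Ω → ℝ) (hp : IsLaw p)
    (P E : Ω → Fin c → ℝ) (s R : ℕ) {B τ ε θ : ℝ} (G : Ω → Ω → Prop) (hB1 : 1 ≤ B)
    (hB : ∀ v i, |E v i| ≤ B)
    (hG : ∀ ω ω', G ω ω' → |∑ i, (P ω i - P ω' i) * E ω' i| ≤ τ)
    (hε : ∑ ω, p ω * ∑ ω', p ω' * in1 (¬ G ω ω') ≤ ε) (hθ : 0 < θ)
    (hsp : θ ≤ Ex (pw p R) (fun w => in1 (BgE s E R c w))) :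
    1 - 2 * R * ε / θ ≤ ∑ ω, p ω * ∑ ω', p ω' * in1 (∀ i, |P ω i - P ω' i| ≤
      c * (c.factorial * B ^ c) * (2 * τ) * 2 ^ sm s c) := by
  classical
  -- bad pairs for a list
  have hpt : ∀ ω ω', 1 - (∑ w, pw p R w * (∑ k, in1 (¬ G ω (w k)) + ∑ k, in1 (¬ G ω' (w k)))) / θ ≤
      in1 (∀ i, |P ω i - P ω' i| ≤ c * (c.factorial * B ^ c) * (2 * τ) * 2 ^ sm s c) := by
    intro ω ω'
    have hnn : 0 ≤ ∑ w, pw p R w * (∑ k, in1 (¬ G ω (w k)) + ∑ k, in1 (¬ G ω' (w k))) :=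
      Finset.sum_nonneg fun w _ => mul_nonneg (pw_nonneg hp.nonneg R w)
        (add_nonneg (Finset.sum_nonneg fun k _ => in1_nonneg _)
          (Finset.sum_nonneg fun k _ => in1_nonneg _))
    by_cases h : ∃ w, BgE s E R c w ∧ (∀ k, G ω (w k)) ∧ ∀ k, G ω' (w k)
    · obtain ⟨w, hw, h1, h2⟩ := h
      have hgood : ∀ i, |P ω i - P ω' i| ≤
          c * (c.factorial * B ^ c) * (2 * τ) * 2 ^ sm s c := by
        intro i
        refine bg_le hB1 hB hw (fun i => P ω i - P ω' i) ?_ i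
        intro k
        have e1 : ∑ i, (P ω i - P ω' i) * E (w k) i =
            ∑ i, (P ω i - P (w k) i) * E (w k) i - ∑ i, (P ω' i - P (w k) i) * E (w k) i := by
          rw [← Finset.sum_sub_distrib]
          exact Finset.sum_congr rfl fun i _ => by ring
        rw [e1]
        refine (abs_sub _ _).trans ?_
        have := hG _ _ (h1 k)
        have := hG _ _ (h2 k)
        linarith
      rw [in1_pos hgood]
      have := div_nonneg hnn hθ.le
      linarith
    · push Not at h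
      have h3 : θ ≤ ∑ w, pw p R w * (∑ k, in1 (¬ G ω (w k)) + ∑ k, in1 (¬ G ω' (w k))) := by
        refine hsp.trans ?_
        unfold Ex
        refine Finset.sum_le_sum fun w _ => mul_le_mul_of_nonneg_left ?_ (pw_nonneg hp.nonneg R w)
        have i1 : 0 ≤ ∑ k, in1 (¬ G ω (w k)) := Finset.sum_nonneg fun k _ => in1_nonneg _
        have i2 : 0 ≤ ∑ k, in1 (¬ G ω' (w k)) := Finset.sum_nonneg fun k _ => in1_nonneg _
        change in1 (BgE s E R c w) ≤ _
        by_cases hb : BgE s E R c w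
        · rw [in1_pos hb]
          by_cases h1 : ∀ k, G ω (w k)
          · obtain ⟨k, hk⟩ := h w hb h1
            have := Finset.single_le_sum (f := fun k => in1 (¬ G ω' (w k)))
              (fun k _ => in1_nonneg _) (Finset.mem_univ k)
            rw [in1_pos hk] at this
            linarith
          · push Not at h1
            obtain ⟨k, hk⟩ := h1
            have := Finset.single_le_sum (f := fun k => in1 (¬ G ω (w k)))
              (fun k _ => in1_nonneg _) (Finset.mem_univ k)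
            rw [in1_pos hk] at this
            linarith
        · have e1 : in1 (BgE s E R c w) = 0 := by
            unfold in1
            exact if_neg hb
          rw [e1]
          linarith
      have h4 : 1 ≤ (∑ w, pw p R w * (∑ k, in1 (¬ G ω (w k)) + ∑ k, in1 (¬ G ω' (w k)))) / θ := by
        rw [le_div_iff₀ hθ]
        linarith
      have := in1_nonneg (∀ i, |P ω i - P ω' i| ≤
        c * (c.factorial * B ^ c) * (2 * τ) * 2 ^ sm s c)
      linarith
  -- the mean of the number of bad pairs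
  have hm : ∀ ω, ∑ w, pw p R w * ∑ k, in1 (¬ G ω (w k)) =
      R * ∑ ω', p ω' * in1 (¬ G ω ω') := by
    intro ω
    have e1 : ∀ w : Fin R → Ω, pw p R w * ∑ k, in1 (¬ G ω (w k)) =
        ∑ k, pw p R w * in1 (¬ G ω (w k)) := fun w => Finset.mul_sum _ _ _
    rw [Finset.sum_congr rfl fun w _ => e1 w, Finset.sum_comm]
    rw [Finset.sum_congr rfl fun k _ => pw_marg hp.sum_one R k (fun ω' => in1 (¬ G ω ω'))]
    rw [Finset.sum_const, Finset.card_univ, Fintype.card_fin, nsmul_eq_mul]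
  have e1 : ∑ ω, p ω * ∑ ω', p ω' * (1 - (∑ w, pw p R w * (∑ k, in1 (¬ G ω (w k)) +
      ∑ k, in1 (¬ G ω' (w k)))) / θ) ≤ ∑ ω, p ω * ∑ ω', p ω' * in1 (∀ i, |P ω i - P ω' i| ≤
      c * (c.factorial * B ^ c) * (2 * τ) * 2 ^ sm s c) :=
    Finset.sum_le_sum fun ω _ => mul_le_mul_of_nonneg_left (Finset.sum_le_sum fun ω' _ =>
      mul_le_mul_of_nonneg_left (hpt ω ω') (hp.nonneg ω')) (hp.nonneg ω)
  refine le_trans ?_ e1
  have e2 : ∀ ω ω', (∑ w, pw p R w * (∑ k, in1 (¬ G ω (w k)) + ∑ k, in1 (¬ G ω' (w k)))) =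
      R * (∑ ω₁, p ω₁ * in1 (¬ G ω ω₁)) + R * (∑ ω₁, p ω₁ * in1 (¬ G ω' ω₁)) := by
    intro ω ω'
    rw [← hm ω, ← hm ω', ← Finset.sum_add_distrib]
    exact Finset.sum_congr rfl fun w _ => by ring
  simp only [e2]
  have e3 : ∑ ω, p ω * ∑ ω', p ω' * (1 - (R * (∑ ω₁, p ω₁ * in1 (¬ G ω ω₁)) +
      R * (∑ ω₁, p ω₁ * in1 (¬ G ω' ω₁))) / θ) =
      1 - 2 * R * (∑ ω, p ω * ∑ ω', p ω' * in1 (¬ G ω ω')) / θ := by
    have t1 : ∀ ω, ∑ ω', p ω' * (1 - (R * (∑ ω₁, p ω₁ * in1 (¬ G ω ω₁)) +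
        R * (∑ ω₁, p ω₁ * in1 (¬ G ω' ω₁))) / θ) =
        1 - R / θ * (∑ ω₁, p ω₁ * in1 (¬ G ω ω₁)) -
          R / θ * ∑ ω', p ω' * ∑ ω₁, p ω₁ * in1 (¬ G ω' ω₁) := by
      intro ω
      have t2 : ∀ ω', p ω' * (1 - (R * (∑ ω₁, p ω₁ * in1 (¬ G ω ω₁)) +
          R * (∑ ω₁, p ω₁ * in1 (¬ G ω' ω₁))) / θ) =
          p ω' - p ω' * (R / θ * (∑ ω₁, p ω₁ * in1 (¬ G ω ω₁))) -
            R / θ * (p ω' * ∑ ω₁, p ω₁ * in1 (¬ G ω' ω₁)) := by
        intro ω'
        ring
      rw [Finset.sum_congr rfl fun ω' _ => t2 ω', Finset.sum_sub_distrib,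
        Finset.sum_sub_distrib, ← Finset.sum_mul, ← Finset.mul_sum, hp.sum_one, one_mul]
    rw [Finset.sum_congr rfl fun ω _ => by rw [t1 ω]]
    have t3 : ∀ ω, p ω * (1 - R / θ * (∑ ω₁, p ω₁ * in1 (¬ G ω ω₁)) -
          R / θ * ∑ ω', p ω' * ∑ ω₁, p ω₁ * in1 (¬ G ω' ω₁)) =
        p ω - R / θ * (p ω * ∑ ω₁, p ω₁ * in1 (¬ G ω ω₁)) -
          p ω * (R / θ * ∑ ω', p ω' * ∑ ω₁, p ω₁ * in1 (¬ G ω' ω₁)) := by
      intro ω
      ring
    rw [Finset.sum_congr rfl fun ω _ => t3 ω, Finset.sum_sub_distrib,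
      Finset.sum_sub_distrib, ← Finset.mul_sum, ← Finset.sum_mul, hp.sum_one, one_mul]
    ring
  rw [e3]
  have e4 : 2 * R * (∑ ω, p ω * ∑ ω', p ω' * in1 (¬ G ω ω')) / θ ≤ 2 * R * ε / θ :=
    div_le_div_of_nonneg_right (mul_le_mul_of_nonneg_left hε (by positivity)) hθ.le
  linarith

end Pool.XK
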