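import Pool.Agent.H89.X.Rnk
import Pool.Agent.H5.K2.Tree

/-!
# Samples of one line: families (row 355)

`L` is a label (line, context). The samples `w` are `n + 1` copies given `L` (`Pool.K2S.cpn`).
-/

set_option autoImplicit false

namespace Pool.XK

open Finset Real
open Pool.Agent.H49.Ent Pool.Agent.H32.Dense Pool.STK Pool.KS3 Pool.POLY Pool.DYN
open Pool.BFL (Pb)
open Pool.K2S (cpn)

section

variable {Ω Λ : Type} [Fintype Ω]

theorem cond_law {p : Ω → ℝ} (hp : IsLaw p) (L : Ω → Λ) {l : Λ} (hl : law p L l ≠ 0) :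
    IsLaw (cond p L l) :=
  ⟨cond_nonneg hp.nonneg L l, sum_cond p L hl⟩

/-- The copies given the label, as independent samples of the conditional law. -/
theorem Ex_cpn {p : Ω → ℝ} (hp : IsLaw p) (L : Ω → Λ) (n : ℕ) (g : (Fin (n + 1) → Ω) → ℝ) :
    Ex (cpn p L n) g = Ex p (fun ω => Ex (pw (cond p L (L ω)) (n + 1)) g) := by
  classical
  unfold Ex
  have e1 : ∀ ω, p ω * ∑ w, pw (cond p L (L ω)) (n + 1) w * g w =
      ∑ w, p ω * pw (cond p L (L ω)) (n + 1) w * g w := by
    intro ω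
    rw [Finset.mul_sum]
    exact Finset.sum_congr rfl fun w _ => by ring
  rw [Finset.sum_congr rfl fun ω _ => e1 ω, Finset.sum_comm]
  refine Finset.sum_congr rfl fun w _ => ?_
  rw [← Finset.sum_mul]
  congr 1
  unfold cpn
  split_ifs with h
  · -- only `ω` with the label of `w 0` count
    have e2 : ∀ ω, p ω * pw (cond p L (L ω)) (n + 1) w =
        if L ω = L (w 0) then p ω * ((∏ i, p (w i)) / law p L (L (w 0)) ^ (n + 1)) else 0 := by
      intro ω
      split_ifs with h1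
      · congr 1
        unfold pw Pool.Agent.H49.Ent.cond
        have e3 : ∀ i, (if L (w i) = L ω then p (w i) / law p L (L ω) else 0) =
            p (w i) / law p L (L (w 0)) := by
          intro i
          rw [if_pos (by rw [h i, h1]), h1]
        rw [Finset.prod_congr rfl fun i _ => e3 i, Finset.prod_div_distrib, Finset.prod_const,
          Finset.card_univ, Fintype.card_fin]
      · have : pw (cond p L (L ω)) (n + 1) w = 0 := by
          unfold pw Pool.Agent.H49.Ent.cond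
          refine Finset.prod_eq_zero (Finset.mem_univ (0 : Fin (n + 1))) ?_
          rw [if_neg (Ne.symm h1)]
        rw [this, mul_zero]
    rw [Finset.sum_congr rfl fun ω _ => e2 ω, ← Finset.sum_filter, ← Finset.sum_mul]
    have e4 : ∑ ω ∈ univ.filter (fun ω => L ω = L (w 0)), p ω = law p L (L (w 0)) := by
      unfold law
      rw [Finset.sum_filter]
    rw [e4]
    by_cases h0 : law p L (L (w 0)) = 0
    · have h2 : p (w 0) = 0 := by
        by_contra h3
        have h4 : 0 < p (w 0) := lt_of_le_of_ne (hp.nonneg _) (Ne.symm h3)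
        have := law_pos hp.nonneg L h4
        linarith
      rw [Finset.prod_eq_zero (Finset.mem_univ (0 : Fin (n + 1))) h2]
      simp
    · rw [pow_succ]
      field_simp
  · refine (Finset.sum_eq_zero fun ω _ => ?_).symm
    have : pw (cond p L (L ω)) (n + 1) w = 0 := by
      by_contra h0
      apply h
      have h1 : ∀ i, L (w i) = L ω := by
        intro i
        by_contra h2
        apply h0
        unfold pw Pool.Agent.H49.Ent.cond
        refine Finset.prod_eq_zero (Finset.mem_univ i) ?_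
        rw [if_neg h2]
      intro i
      rw [h1 i, h1 0]
    rw [this, mul_zero]

/-- Means by fibres. -/
theorem Ex_fib {p : Ω → ℝ} (hp : IsLaw p) (L : Ω → Λ) (f : Ω → ℝ) :
    Ex p f = Ex p (fun ω => Ex (cond p L (L ω)) f) := by
  have h := Ex_cpn hp L 0 (fun w => f (w 0))
  have e1 : Ex (cpn p L 0) (fun w => f (w 0)) = Ex p f := by
    unfold Ex cpn
    rw [← (Equiv.funUnique (Fin 1) Ω).symm.sum_comp]
    refine Finset.sum_congr rfl fun ω _ => ?_
    simp
  have e2 : ∀ q : Ω → ℝ, Ex (pw q (0 + 1)) (fun w => f (w 0)) = Ex q f := by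
    intro q
    unfold Ex pw
    rw [← (Equiv.funUnique (Fin 1) Ω).symm.sum_comp]
    refine Finset.sum_congr rfl fun ω _ => ?_
    simp
  rw [e1] at h
  rw [h]
  simp only [e2]

end

/-- A unit covector orthogonal to less than `c` vectors. -/
theorem ortho {m c : ℕ} (hmc : m < c) (w : Fin m → Fin c → ℝ) (ρ : Fin m → Fin c) {μ : ℝ}
    (hμ : 0 < μ) (h : μ ≤ |(Matrix.of fun a b => w a (ρ b)).det|) :
    ∃ N : Fin c → ℝ, (∀ i, |N i| ≤ 1) ∧ (∃ i, |N i| = 1) ∧ ∀ a, ∑ i, N i * w a i = 0 := by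
  obtain ⟨N, h1, h2, h3⟩ := covector hmc w ρ hμ h
  refine ⟨N, h1, h2, fun a => ?_⟩
  have h4 := h3 (w a) 0 (by
    intro ρ'
    have : (Matrix.of fun a' b => (Fin.snoc w (w a) : Fin (m + 1) → Fin c → ℝ) a' (ρ' b)).det =
        0 := by
      refine Matrix.det_zero_of_row_eq (i := Fin.castSucc a) (j := Fin.last m)
        (Fin.castSucc_lt_last a).ne ?_
      funext b
      simp only [Matrix.of_apply, Fin.snoc_castSucc, Fin.snoc_last]
    rw [this, abs_zero])
  rw [zero_div] at h4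
  exact abs_nonpos_iff.1 h4

/-- **The span of the typical vectors of a line.** The data `m, w, ρ` depend on `l` only. -/
theorem spn_line (c : ℕ) (η : ℝ) (hη : 0 < η) : ∃ n : ℕ, ∀ (Ω Λ : Type) [Fintype Ω]
    (p : Ω → ℝ) (L : Ω → Λ) (E : Ω → Fin c → ℝ) (s : ℕ), IsLaw p → ∀ l, law p L l ≠ 0 →
    ∃ m ≤ c, ∃ (w : Fin m → Ω) (ρ : Fin m → Fin c), (∀ a, 0 < p (w a) ∧ L (w a) = l) ∧
      (1 / 2) ^ sm s m ≤ |(Matrix.of fun a b => E (w a) (ρ b)).det| ∧
      1 / ((c : ℝ) + 1) ≤ Ex (pw (cond p L l) (n + 1)) (fun w => in1 (BgE s E (n + 1) m w)) ∧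
      1 - η ≤ Pb (cond p L l) (fun v => ∃ t : Fin m → ℝ, ∀ i,
        |E v i - ∑ a, E (w a) i * t a| ≤ (1 / 2) ^ (3 * s)) := by
  obtain ⟨Rm, hRm, h⟩ := spn_thm c η hη
  refine ⟨Rm - 1, ?_⟩
  intro Ω Λ _ p L E s hp l hl
  obtain ⟨m, hm, w, ρ, h1, h2, h3, h4⟩ := h Ω (cond p L l) E s (cond_law hp L hl)
  have e1 : Rm - 1 + 1 = Rm := by omega
  rw [e1]
  exact ⟨m, hm, w, ρ, fun a => (cond_pos_iff hp.nonneg L l (w a)).1 (h1 a), h2, h3, h4⟩

/-- **The spanning lemma.** If the copies given `L` have no large determinant, except with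
probability `β`, then a unit covector which is a function of `L` nearly kills `E`, except with
probability `η + (c + 1) β`. -/
theorem spn_cov (c : ℕ) (hc : 0 < c) (η : ℝ) (hη : 0 < η) : ∃ n : ℕ, ∀ (Ω Λ : Type) [Fintype Ω]
    (p : Ω → ℝ) (L : Ω → Λ) (E : Ω → Fin c → ℝ) (s : ℕ), IsLaw p →
    ∃ N : Λ → Fin c → ℝ, (∀ l i, |N l i| ≤ 1) ∧ (∀ l, ∃ i, |N l i| = 1) ∧
      1 - η - (c + 1) * Ex (cpn p L n) (fun w => in1 (BgE s E (n + 1) c w)) ≤
        Pb p (fun ω => |∑ i, N (L ω) i * E ω i| ≤ c * (1 / 2) ^ (3 * s)) := by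
  classical
  obtain ⟨n, h⟩ := spn_line c η hη
  refine ⟨n, ?_⟩
  intro Ω Λ _ p L E s hp
  have key : ∀ l, ∃ N : Fin c → ℝ, (∀ i, |N i| ≤ 1) ∧ (∃ i, |N i| = 1) ∧ (law p L l ≠ 0 →
      1 - η - (c + 1) * Ex (pw (cond p L l) (n + 1)) (fun w => in1 (BgE s E (n + 1) c w)) ≤
      Pb (cond p L l) (fun ω => |∑ i, N i * E ω i| ≤ c * (1 / 2) ^ (3 * s))) := by
    intro l
    by_cases hl : law p L l = 0
    · exact ⟨fun _ => 1, fun _ => by simp, ⟨⟨0, hc⟩, by simp⟩, fun h => absurd hl h⟩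
    have hpl := cond_law hp L hl
    obtain ⟨m, hm, w, ρ, _, h2, h3, h4⟩ := h Ω Λ p L E s hp l hl
    have hEx0 : 0 ≤ Ex (pw (cond p L l) (n + 1)) (fun w => in1 (BgE s E (n + 1) c w)) :=
      Ex_nonneg (pw_nonneg hpl.nonneg _) fun w _ => in1_nonneg _
    rcases hm.eq_or_lt with hmc | hmc
    · subst hmc
      refine ⟨fun _ => 1, fun _ => by simp, ⟨⟨0, hc⟩, by simp⟩, fun _ => ?_⟩
      have h5 : 1 ≤ ((m : ℝ) + 1) * Ex (pw (cond p L l) (n + 1))
          (fun w => in1 (BgE s E (n + 1) m w)) := by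
        have h6 := mul_le_mul_of_nonneg_left h3 (by positivity : (0 : ℝ) ≤ (m : ℝ) + 1)
        have h7 : ((m : ℝ) + 1) * (1 / ((m : ℝ) + 1)) = 1 := by field_simp
        linarith
      have h8 : 0 ≤ Pb (cond p L l) (fun ω => |∑ i, (1 : ℝ) * E ω i| ≤ m * (1 / 2) ^ (3 * s)) := by
        rw [Pb_eq_Ex]
        exact Ex_nonneg hpl.nonneg fun w _ => in1_nonneg _
      linarith
    · obtain ⟨N, hN1, hN2, hN3⟩ := ortho hmc (fun a => E (w a)) ρ
        (by positivity : (0 : ℝ) < (1 / 2) ^ sm s m) h2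
      refine ⟨N, hN1, hN2, fun _ => ?_⟩
      have h5 : Pb (cond p L l) (fun v => ∃ t : Fin m → ℝ, ∀ i,
          |E v i - ∑ a, E (w a) i * t a| ≤ (1 / 2) ^ (3 * s)) ≤
          Pb (cond p L l) (fun ω => |∑ i, N i * E ω i| ≤ c * (1 / 2) ^ (3 * s)) := by
        refine Pb_le hpl.nonneg fun v hv => ?_
        obtain ⟨t, ht⟩ := hv
        have e1 : ∑ i, N i * E v i = ∑ i, N i * (E v i - ∑ a, E (w a) i * t a) := by
          have e2 : ∑ i, N i * ∑ a, E (w a) i * t a = 0 := by
            have e3 : ∑ i, N i * ∑ a, E (w a) i * t a = ∑ a, t a * ∑ i, N i * E (w a) i := by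
              simp only [Finset.mul_sum]
              rw [Finset.sum_comm]
              exact Finset.sum_congr rfl fun a _ => Finset.sum_congr rfl fun i _ => by ring
            rw [e3]
            exact Finset.sum_eq_zero fun a _ => by rw [hN3 a, mul_zero]
          simp only [mul_sub, Finset.sum_sub_distrib]
          rw [e2, sub_zero]
        rw [e1]
        calc |∑ i, N i * (E v i - ∑ a, E (w a) i * t a)|
            ≤ ∑ i, |N i * (E v i - ∑ a, E (w a) i * t a)| := Finset.abs_sum_le_sum_abs _ _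
          _ ≤ ∑ _i : Fin c, (1 / 2 : ℝ) ^ (3 * s) := by
              refine Finset.sum_le_sum fun i _ => ?_
              rw [abs_mul]
              calc |N i| * |E v i - ∑ a, E (w a) i * t a|
                  ≤ 1 * |E v i - ∑ a, E (w a) i * t a| :=
                    mul_le_mul_of_nonneg_right (hN1 i) (abs_nonneg _)
                _ ≤ _ := by rw [one_mul]; exact ht i
          _ = c * (1 / 2) ^ (3 * s) := by
              rw [Finset.sum_const, Finset.card_univ, Fintype.card_fin, nsmul_eq_mul]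
      have h6 : 0 ≤ ((c : ℝ) + 1) *
          Ex (pw (cond p L l) (n + 1)) (fun w => in1 (BgE s E (n + 1) c w)) := by positivity
      linarith
  choose N hN1 hN2 hN3 using key
  refine ⟨N, hN1, hN2, ?_⟩
  rw [Ex_cpn hp, Pb_eq_Ex, Ex_fib hp L
    (fun w => in1 (|∑ i, N (L w) i * E w i| ≤ c * (1 / 2) ^ (3 * s)))]
  have e1 : ∀ ω, 0 < p ω → 1 - η - (c + 1) * Ex (pw (cond p L (L ω)) (n + 1))
      (fun w => in1 (BgE s E (n + 1) c w)) ≤ Ex (cond p L (L ω))
      (fun ω => in1 (|∑ i, N (L ω) i * E ω i| ≤ c * (1 / 2) ^ (3 * s))) := by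
    intro ω hω
    have h1 := hN3 (L ω) (law_pos hp.nonneg L hω).ne'
    rw [Pb_eq_Ex] at h1
    refine h1.trans (le_of_eq ?_)
    unfold Ex
    refine Finset.sum_congr rfl fun v _ => ?_
    dsimp only
    by_cases hv : L v = L ω
    · rw [hv]
    · have : cond p L (L ω) v = 0 := by
        unfold Pool.Agent.H49.Ent.cond
        exact if_neg hv
      rw [this, zero_mul, zero_mul]
  have e2 := Ex_mono hp.nonneg e1
  have e3 : Ex p (fun ω => 1 - η - (c + 1) * Ex (pw (cond p L (L ω)) (n + 1))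
      (fun w => in1 (BgE s E (n + 1) c w))) = 1 - η - (c + 1) *
      Ex p (fun ω => Ex (pw (cond p L (L ω)) (n + 1))
      (fun w => in1 (BgE s E (n + 1) c w))) := by
    rw [Ex_sub, Ex_const hp.sum_one, Ex_smul]
  rw [e3] at e2
  exact e2

end Pool.XK
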