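import Pool.Agent.H89.X.Grad
import Pool.Agent.H83.DYN.Cov

/-!
# The span of the typical vectors of a line (row 355)

For every finite law and every vector `E` there are `m ≤ c` samples with an `m × m` minor at least
`2 ^ (-sm s m)` such that `E` is, with probability near one, a combination of these `m` vectors up to
`2 ^ (-3 s)`; and `R` independent samples contain `m` vectors with such a minor with probability
at least `1 / (c + 1)`.
-/

set_option autoImplicit false

namespace Pool.XK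

open Finset Real
open Pool.Agent.H49.Ent Pool.Agent.H32.Dense Pool.STK Pool.KS3 Pool.POLY Pool.DYN
open Pool.BFL (Pb)

/-- **The typical rank.** -/
theorem spn_rank {Ω : Type} [Fintype Ω] {c : ℕ} (p : Ω → ℝ) (hp : IsLaw p) (E : Ω → Fin c → ℝ)
    (s Rm : ℕ) (hRm : 1 ≤ Rm) :
    ∃ R < Rm, ∃ m ≤ c, ∃ T : Fin R → Ω, (∀ k, 0 < p (T k)) ∧ rkE s E R T = m ∧
      1 / ((c : ℝ) + 1) ≤ Ex (pw p R) (fun w => in1 (rkE s E R w = m)) ∧
      1 - (c + 1) * (c / Rm) ≤
        Pb p (fun v => rkE s E (R + 1) (Fin.snoc T v : Fin (R + 1) → Ω) = m) := by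
  classical
  set f : ℕ → ℝ := fun R => Ex (pw p R) (fun w => (rkE s E R w : ℝ)) with hf
  obtain ⟨R, hR, hfR⟩ := pig1 f c Rm hRm
    (Ex_nonneg (pw_nonneg hp.nonneg 0) fun w _ => Nat.cast_nonneg _) (by
      have e1 : Ex (pw p Rm) (fun w => (rkE s E Rm w : ℝ)) ≤ Ex (pw p Rm) (fun _ => (c : ℝ)) :=
        Ex_mono (pw_nonneg hp.nonneg Rm) fun w _ => by
          have t2 : rkE s E Rm w ≤ c := rkE_le _ _
          exact_mod_cast t2
      rw [Ex_const (pw_sum hp.sum_one Rm)] at e1
      exact e1)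
  have hc0 : (0 : ℝ) ≤ c := Nat.cast_nonneg _
  have hRm' : (1 : ℝ) ≤ Rm := by exact_mod_cast hRm
  -- the popular rank
  obtain ⟨m, hm, hPm⟩ : ∃ m ≤ c, 1 / ((c : ℝ) + 1) ≤
      Ex (pw p R) (fun w => in1 (rkE s E R w = m)) := by
    by_contra hcon
    push Not at hcon
    have e1 : ∑ m ∈ range (c + 1), Ex (pw p R) (fun w => in1 (rkE s E R w = m)) <
        ∑ _m ∈ range (c + 1), 1 / ((c : ℝ) + 1) := by
      refine Finset.sum_lt_sum_of_nonempty ⟨0, Finset.mem_range.2 (by omega)⟩ fun m hm => ?_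
      exact hcon m (by rw [Finset.mem_range] at hm; omega)
    have e2 : ∑ m ∈ range (c + 1), Ex (pw p R) (fun w => in1 (rkE s E R w = m)) = 1 := by
      unfold Ex
      rw [Finset.sum_comm]
      rw [← pw_sum hp.sum_one R]
      refine Finset.sum_congr rfl fun w _ => ?_
      rw [← Finset.mul_sum]
      have : ∑ m ∈ range (c + 1), in1 (rkE s E R w = m) = 1 := by
        rw [Finset.sum_eq_single (rkE s E R w)]
        · exact in1_pos rfl
        · intro b _ hb
          unfold in1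
          exact if_neg (Ne.symm hb)
        · intro h
          exact absurd (Finset.mem_range.2 (Nat.lt_succ_of_le (rkE_le R w))) h
      rw [this, mul_one]
    rw [e2, Finset.sum_const, Finset.card_range, nsmul_eq_mul] at e1
    have : ((c + 1 : ℕ) : ℝ) * (1 / ((c : ℝ) + 1)) = 1 := by
      push_cast
      field_simp
    rw [this] at e1
    exact lt_irrefl _ e1
  -- the increase
  set g : (Fin R → Ω) → ℝ := fun T => (∑ v, p v *
    (rkE s E (R + 1) (Fin.snoc T v : Fin (R + 1) → Ω) : ℝ)) - rkE s E R T with hg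
  have hmon : ∀ (T : Fin R → Ω) v, (rkE s E R T : ℝ) ≤
      (rkE s E (R + 1) (Fin.snoc T v : Fin (R + 1) → Ω) : ℝ) := by
    intro T v
    have : rkE s E R T ≤ rkE s E (R + 1) (Fin.snoc T v : Fin (R + 1) → Ω) :=
      rkE_mono (Nat.le_succ R) _ _ (fun k => by
        have : Fin.castLE (Nat.le_succ R) k = Fin.castSucc k := rfl
        rw [this, Fin.snoc_castSucc])
    exact_mod_cast this
  have hg0 : ∀ T, 0 ≤ g T := by
    intro T
    have e1 : ∑ v, p v * (rkE s E R T : ℝ) ≤ ∑ v, p v *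
        (rkE s E (R + 1) (Fin.snoc T v : Fin (R + 1) → Ω) : ℝ) :=
      Finset.sum_le_sum fun v _ => mul_le_mul_of_nonneg_left (hmon T v) (hp.nonneg v)
    rw [← Finset.sum_mul, hp.sum_one, one_mul] at e1
    rw [hg]
    linarith
  have hgs : ∑ T, pw p R T * g T ≤ c / Rm := by
    have hfs : f (R + 1) = ∑ w, pw p R w * ∑ ω, p ω *
      (rkE s E (R + 1) (Fin.snoc w ω : Fin (R + 1) → Ω) : ℝ) := pw_snoc p R _
    have e4 : f R = ∑ T, pw p R T * (rkE s E R T : ℝ) := rfl
    have e5 : ∑ T, pw p R T * g T = f (R + 1) - f R := by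
      rw [hfs, e4, ← Finset.sum_sub_distrib]
      exact Finset.sum_congr rfl fun T _ => by rw [hg]; ring
    rw [e5]
    exact hfR
  -- the choice of the list
  obtain ⟨T, hT0, hTm, hTg⟩ : ∃ T, 0 < pw p R T ∧ rkE s E R T = m ∧
      g T ≤ (c + 1) * (c / Rm) := by
    by_contra hcon
    push Not at hcon
    have e1 : (c + 1) * (c / Rm) * Ex (pw p R) (fun w => in1 (rkE s E R w = m)) <
        ∑ T, pw p R T * g T := by
      unfold Ex
      rw [Finset.mul_sum]
      obtain ⟨T₀, h1, h2⟩ : ∃ T₀, 0 < pw p R T₀ ∧ rkE s E R T₀ = m := by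
        by_contra h'
        push Not at h'
        have : Ex (pw p R) (fun w => in1 (rkE s E R w = m)) ≤ 0 := by
          refine Finset.sum_nonpos fun w _ => ?_
          rcases (pw_nonneg hp.nonneg R w).eq_or_lt with h0 | h0
          · rw [← h0, zero_mul]
          · have : in1 (rkE s E R w = m) = 0 := by
              unfold in1
              exact if_neg (h' w h0)
            dsimp only
            rw [this, mul_zero]
        have : 0 < 1 / ((c : ℝ) + 1) := by positivity
        linarith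
      refine Finset.sum_lt_sum (fun w _ => ?_) ⟨T₀, Finset.mem_univ _, ?_⟩
      · rcases (pw_nonneg hp.nonneg R w).eq_or_lt with h0 | h0
        · rw [← h0, zero_mul, zero_mul, mul_zero]
        · by_cases h3 : rkE s E R w = m
          · dsimp only
            rw [in1_pos h3, mul_one]
            have := mul_le_mul_of_nonneg_left (hcon w h0 h3).le h0.le
            linarith
          · have : in1 (rkE s E R w = m) = 0 := by
              unfold in1
              exact if_neg h3
            dsimp only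
            rw [this, mul_zero, mul_zero]
            exact mul_nonneg h0.le (hg0 w)
      · dsimp only
        rw [in1_pos h2, mul_one]
        have := mul_lt_mul_of_pos_left (hcon T₀ h1 h2) h1
        linarith
    have e2 : c / Rm ≤ (c + 1) * (c / Rm) * Ex (pw p R) (fun w => in1 (rkE s E R w = m)) := by
      have t1 : (c : ℝ) / Rm = (c + 1) * (c / Rm) * (1 / ((c : ℝ) + 1)) := by
        field_simp
      calc (c : ℝ) / Rm = (c + 1) * (c / Rm) * (1 / ((c : ℝ) + 1)) := t1
        _ ≤ _ := mul_le_mul_of_nonneg_left hPm (by positivity)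
    linarith
  refine ⟨R, hR, m, hm, T, ?_, hTm, hPm, ?_⟩
  · intro k
    rcases (hp.nonneg (T k)).eq_or_lt with h0 | h0
    · exfalso
      have : pw p R T = 0 := by
        unfold pw
        exact Finset.prod_eq_zero (Finset.mem_univ k) h0.symm
      linarith
    · exact h0
  · have e1 : ∀ v, 1 - ((rkE s E (R + 1) (Fin.snoc T v : Fin (R + 1) → Ω) : ℝ) - rkE s E R T) ≤
        in1 (rkE s E (R + 1) (Fin.snoc T v : Fin (R + 1) → Ω) = m) := by
      intro v
      by_cases h : rkE s E (R + 1) (Fin.snoc T v : Fin (R + 1) → Ω) = m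
      · rw [in1_pos h]
        have := hmon T v
        linarith
      · have h0 : in1 (rkE s E (R + 1) (Fin.snoc T v : Fin (R + 1) → Ω) = m) = 0 := by
          unfold in1
          exact if_neg h
        rw [h0]
        have h1 : rkE s E R T ≤ rkE s E (R + 1) (Fin.snoc T v : Fin (R + 1) → Ω) := by
          exact_mod_cast hmon T v
        have h2 : rkE s E R T + 1 ≤ rkE s E (R + 1) (Fin.snoc T v : Fin (R + 1) → Ω) := by
          rw [hTm] at h1 ⊢
          exact Nat.lt_of_le_of_ne h1 (Ne.symm h)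
        have h3 : (rkE s E R T : ℝ) + 1 ≤
          (rkE s E (R + 1) (Fin.snoc T v : Fin (R + 1) → Ω) : ℝ) := by exact_mod_cast h2
        linarith
    have e2 : ∑ v, p v * (1 - ((rkE s E (R + 1) (Fin.snoc T v : Fin (R + 1) → Ω) : ℝ) -
        rkE s E R T)) ≤ Pb p (fun v => rkE s E (R + 1) (Fin.snoc T v : Fin (R + 1) → Ω) = m) := by
      rw [Pb_eq_Ex]
      exact Finset.sum_le_sum fun v _ => mul_le_mul_of_nonneg_left (e1 v) (hp.nonneg v)
    refine le_trans ?_ e2
    have e3 : ∑ v, p v * (1 - ((rkE s E (R + 1) (Fin.snoc T v : Fin (R + 1) → Ω) : ℝ) -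
        rkE s E R T)) = 1 - g T := by
      rw [hg]
      simp only [mul_sub, mul_one, Finset.sum_sub_distrib, hp.sum_one]
      rw [← Finset.sum_mul, hp.sum_one, one_mul]
    rw [e3]
    linarith

/-- A vector which does not increase the rank is a combination of the vectors of the list. -/
theorem rk_comb {𝒱 : Type} {c s L m : ℕ} {E : 𝒱 → Fin c → ℝ} {T : Fin L → 𝒱} (κ : Fin m → Fin L)
    (ρ : Fin m → Fin c) (h1 : (1 / 2) ^ sm s m ≤ |(Matrix.of fun a b => E (T (κ a)) (ρ b)).det|)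
    (v : 𝒱) (hv : rkE s E (L + 1) (Fin.snoc T v : Fin (L + 1) → 𝒱) = m) :
    ∃ t : Fin m → ℝ, ∀ i, |E v i - ∑ a, E (T (κ a)) i * t a| ≤ (1 / 2) ^ (3 * s) := by
  classical
  have hpos : (0 : ℝ) < (1 / 2) ^ sm s m := by positivity
  have hdet : (Matrix.of fun a b => E (T (κ b)) (ρ a)).det =
      (Matrix.of fun a b => E (T (κ a)) (ρ b)).det := by
    rw [← Matrix.det_transpose]
    rfl
  have h0 : (Matrix.of fun a b => E (T (κ b)) (ρ a)).det ≠ 0 := by
    rw [hdet]
    intro h
    rw [h, abs_zero] at h1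
    linarith
  obtain ⟨t, ht⟩ := Pool.DYN83.mnr_eq (fun a => E (T (κ a))) ρ h0 (E v)
  refine ⟨t, fun i => ?_⟩
  have hsmall : |Pool.DYN83.mnr (fun a => E (T (κ a))) ρ (E v) i| ≤ (1 / 2) ^ sm s (m + 1) := by
    by_contra hcon
    push Not at hcon
    have h3 : BgE s E (L + 1) (m + 1) (Fin.snoc T v : Fin (L + 1) → 𝒱) := by
      refine ⟨Fin.snoc (fun a => Fin.castSucc (κ a)) (Fin.last L), Fin.snoc ρ i, ?_⟩
      have h4 : (Matrix.of fun a b => E ((Fin.snoc T v : Fin (L + 1) → 𝒱)
          ((Fin.snoc (fun a => Fin.castSucc (κ a)) (Fin.last L) : Fin (m + 1) → Fin (L + 1)) a))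
          ((Fin.snoc ρ i : Fin (m + 1) → Fin c) b)).det =
          Pool.DYN83.mnr (fun a => E (T (κ a))) ρ (E v) i := by
        unfold Pool.DYN83.mnr
        rw [← Matrix.det_transpose]
        congr 1
        ext a b
        simp only [Matrix.transpose_apply, Matrix.of_apply]
        refine Fin.lastCases ?_ (fun b => ?_) b
        · rw [Fin.snoc_last, Fin.snoc_last, Fin.snoc_last]
        · rw [Fin.snoc_castSucc, Fin.snoc_castSucc, Fin.snoc_castSucc]
      rw [h4]
      exact hcon.le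
    have hmc : m + 1 ≤ c := by
      by_contra hmc
      obtain ⟨κ', ρ', h5⟩ := h3
      have hni : ¬ Function.Injective ρ' := by
        intro hi
        have := Fintype.card_le_of_injective ρ' hi
        rw [Fintype.card_fin, Fintype.card_fin] at this
        omega
      have : ∃ b b', ρ' b = ρ' b' ∧ b ≠ b' := by
        by_contra h6
        push Not at h6
        exact hni fun b b' h7 => h6 b b' h7
      obtain ⟨b, b', h6, h7⟩ := this
      have h8 : (Matrix.of fun a b => E ((Fin.snoc T v : Fin (L + 1) → 𝒱) (κ' a)) (ρ' b)).det = 0 :=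
        Matrix.det_zero_of_column_eq h7 fun a => by simp only [Matrix.of_apply, h6]
      rw [h8, abs_zero] at h5
      have : (0 : ℝ) < (1 / 2) ^ sm s (m + 1) := by positivity
      linarith
    have h4 := le_rkE hmc h3
    omega
  rw [ht i, hdet, abs_mul] at hsmall
  have h5 : (1 / 2) ^ sm s m * |E v i - ∑ a, E (T (κ a)) i * t a| ≤ (1 / 2) ^ sm s (m + 1) :=
    (mul_le_mul_of_nonneg_right h1 (abs_nonneg _)).trans hsmall
  have h6 : (1 / 2 : ℝ) ^ sm s (m + 1) ≤ (1 / 2) ^ sm s m * (1 / 2) ^ (3 * s) := by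
    rw [← pow_add]
    exact pow_le_pow_of_le_one (by norm_num) (by norm_num) (sm_succ s m)
  exact le_of_mul_le_mul_left (h5.trans h6) hpos

/-- The rank grows with the list. -/
theorem Bg_succ {Ω : Type} [Fintype Ω] {c : ℕ} (p : Ω → ℝ) (hp : IsLaw p) (E : Ω → Fin c → ℝ)
    (s m R : ℕ) : Ex (pw p R) (fun w => in1 (BgE s E R m w)) ≤
      Ex (pw p (R + 1)) (fun w => in1 (BgE s E (R + 1) m w)) := by
  classical
  unfold Ex
  rw [pw_snoc]
  refine Finset.sum_le_sum fun w _ => mul_le_mul_of_nonneg_left ?_ (pw_nonneg hp.nonneg R w)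
  have e1 : in1 (BgE s E R m w) = ∑ v, p v * in1 (BgE s E R m w) := by
    rw [← Finset.sum_mul, hp.sum_one, one_mul]
  dsimp only
  rw [e1]
  refine Finset.sum_le_sum fun v _ => mul_le_mul_of_nonneg_left ?_ (hp.nonneg v)
  unfold in1
  split_ifs with h1 h2 h2
  · exact le_rfl
  · exfalso
    apply h2
    obtain ⟨κ, ρ, h3⟩ := h1
    refine ⟨fun a => Fin.castSucc (κ a), ρ, ?_⟩
    simp only [Fin.snoc_castSucc]
    exact h3
  · norm_num
  · exact le_rfl

theorem Bg_mono {Ω : Type} [Fintype Ω] {c : ℕ} (p : Ω → ℝ) (hp : IsLaw p) (E : Ω → Fin c → ℝ)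
    (s m : ℕ) {R R' : ℕ} (h : R ≤ R') : Ex (pw p R) (fun w => in1 (BgE s E R m w)) ≤
      Ex (pw p R') (fun w => in1 (BgE s E R' m w)) := by
  induction R', h using Nat.le_induction with
  | base => exact le_rfl
  | succ R' _ ih => exact ih.trans (Bg_succ p hp E s m R')

/-- **The span of the typical vectors of a law.** -/
theorem spn_thm (c : ℕ) (η : ℝ) (hη : 0 < η) : ∃ Rm : ℕ, 1 ≤ Rm ∧ ∀ (Ω : Type) [Fintype Ω]
    (p : Ω → ℝ) (E : Ω → Fin c → ℝ) (s : ℕ), IsLaw p →
    ∃ m ≤ c, ∃ (w : Fin m → Ω) (ρ : Fin m → Fin c), (∀ a, 0 < p (w a)) ∧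
      (1 / 2) ^ sm s m ≤ |(Matrix.of fun a b => E (w a) (ρ b)).det| ∧
      1 / ((c : ℝ) + 1) ≤ Ex (pw p Rm) (fun w => in1 (BgE s E Rm m w)) ∧
      1 - η ≤ Pb p (fun v => ∃ t : Fin m → ℝ, ∀ i,
        |E v i - ∑ a, E (w a) i * t a| ≤ (1 / 2) ^ (3 * s)) := by
  classical
  refine ⟨⌈(c + 1) * c / η⌉₊ + 1, by omega, ?_⟩
  intro Ω _ p E s hp
  obtain ⟨R, hR, m, hm, T, hT, hTm, hPm, hPv⟩ := spn_rank p hp E s (⌈(c + 1) * c / η⌉₊ + 1)
    (by omega)
  have hsp := rkE_spec (s := s) (E := E) R T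
  rw [hTm] at hsp
  obtain ⟨κ, ρ, h1⟩ := hsp
  refine ⟨m, hm, fun a => T (κ a), ρ, fun a => hT _, h1, ?_, ?_⟩
  · refine hPm.trans (le_trans ?_ (Bg_mono p hp E s m hR.le))
    refine Ex_mono (pw_nonneg hp.nonneg R) fun w _ => ?_
    unfold in1
    split_ifs with h2 h3 h3
    · exact le_rfl
    · exfalso
      apply h3
      rw [← h2]
      exact rkE_spec (s := s) (E := E) R w
    · norm_num
    · exact le_rfl
  · have h2 : (1 : ℝ) - η ≤ 1 - (c + 1) * (c / ((⌈(c + 1) * c / η⌉₊ + 1 : ℕ) : ℝ)) := by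
      have h3 : ((c : ℝ) + 1) * (c / ((⌈(c + 1) * c / η⌉₊ + 1 : ℕ) : ℝ)) ≤ η := by
        have h4 : ((c : ℝ) + 1) * c / η ≤ ((⌈(c + 1) * c / η⌉₊ + 1 : ℕ) : ℝ) := by
          push_cast
          have := Nat.le_ceil (((c : ℝ) + 1) * c / η)
          linarith
        rw [div_le_iff₀ hη] at h4
        have h5 : (0 : ℝ) < ((⌈(c + 1) * c / η⌉₊ + 1 : ℕ) : ℝ) := by positivity
        rw [← mul_div_assoc, div_le_iff₀ h5]
        linarith
      linarith
    refine h2.trans (hPv.trans (Pb_le hp.nonneg fun v hv => ?_))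
    exact rk_comb κ ρ h1 v hv

end Pool.XK
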