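import Pool.Agent.H89.DYN.AbsB

/-!
# Samples of one line: the spanning dichotomy and constant gradients (row 355)

`p` is the law of a time of one line. Either `R` independent samples of the vector `E` contain `k`
vectors with a large determinant with a fixed probability, or a fixed unit covector nearly kills `E`
with probability `1 - η`. In the first case `(P T - P T') · E T' = O(τ)` for typical pairs gives
`P T = P T'` for typical pairs.
-/

set_option autoImplicit false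

namespace Pool.XK

open Finset Real
open Pool.Agent.H49.Ent Pool.Agent.H32.Dense Pool.STK Pool.KS3 Pool.POLY Pool.DYN
open Pool.BFL (Pb)

section Product

variable {Ω : Type} [Fintype Ω]

/-- Independent samples. -/
def pw (p : Ω → ℝ) (R : ℕ) (w : Fin R → Ω) : ℝ := ∏ i, p (w i)

theorem pw_nonneg {p : Ω → ℝ} (hp : ∀ ω, 0 ≤ p ω) (R : ℕ) (w : Fin R → Ω) : 0 ≤ pw p R w :=
  Finset.prod_nonneg fun i _ => hp (w i)

/-- The last sample. -/
theorem pw_snoc (p : Ω → ℝ) (R : ℕ) (g : (Fin (R + 1) → Ω) → ℝ) :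
    ∑ w, pw p (R + 1) w * g w =
      ∑ w, pw p R w * ∑ ω, p ω * g (Fin.snoc w ω : Fin (R + 1) → Ω) := by
  classical
  rw [← (Fin.snocEquiv fun _ : Fin (R + 1) => Ω).sum_comp, Fintype.sum_prod_type, Finset.sum_comm]
  refine Finset.sum_congr rfl fun w _ => ?_
  rw [Finset.mul_sum]
  refine Finset.sum_congr rfl fun ω _ => ?_
  have e1 : (Fin.snocEquiv fun _ : Fin (R + 1) => Ω) (ω, w) = (Fin.snoc w ω : Fin (R + 1) → Ω) :=
    rfl
  rw [e1]
  have e2 : pw p (R + 1) (Fin.snoc w ω : Fin (R + 1) → Ω) = pw p R w * p ω := by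
    unfold pw
    rw [Fin.prod_univ_castSucc]
    simp only [Fin.snoc_castSucc, Fin.snoc_last]
  rw [e2]
  ring

theorem pw_sum {p : Ω → ℝ} (h1 : ∑ ω, p ω = 1) (R : ℕ) : ∑ w, pw p R w = 1 := by
  induction R with
  | zero =>
    unfold pw
    simp
  | succ R ih =>
    have := pw_snoc p R (fun _ => 1)
    simp only [mul_one, h1] at this
    rw [this, ih]

theorem pw_law {p : Ω → ℝ} (hp : IsLaw p) (R : ℕ) : IsLaw (pw p R) :=
  ⟨pw_nonneg hp.nonneg R, pw_sum hp.sum_one R⟩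

/-- The marginals. -/
theorem pw_marg {p : Ω → ℝ} (h1 : ∑ ω, p ω = 1) (R : ℕ) (i : Fin R) (g : Ω → ℝ) :
    ∑ w, pw p R w * g (w i) = ∑ ω, p ω * g ω := by
  classical
  induction R with
  | zero => exact i.elim0
  | succ R ih =>
    rw [pw_snoc]
    refine Fin.lastCases ?_ (fun i => ?_) i
    · simp only [Fin.snoc_last]
      rw [← Finset.sum_mul, pw_sum h1, one_mul]
    · simp only [Fin.snoc_castSucc]
      have e1 : ∀ w : Fin R → Ω, pw p R w * ∑ ω, p ω * g (w i) = pw p R w * g (w i) := by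
        intro w
        rw [← Finset.sum_mul, h1, one_mul]
      rw [Finset.sum_congr rfl fun w _ => e1 w]
      exact ih i

end Product

section Rank

variable {𝒱 : Type} {c : ℕ}

/-- Some minor of order `m` of the list is not small. -/
def BgE (s : ℕ) (E : 𝒱 → Fin c → ℝ) (L m : ℕ) (T : Fin L → 𝒱) : Prop :=
  ∃ (κ : Fin m → Fin L) (ρ : Fin m → Fin c),
    (1 / 2) ^ sm s m ≤ |(Matrix.of fun a b => E (T (κ a)) (ρ b)).det|

open Classical in
/-- The rank of a list. -/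
noncomputable def rkE (s : ℕ) (E : 𝒱 → Fin c → ℝ) (L : ℕ) (T : Fin L → 𝒱) : ℕ :=
  Nat.findGreatest (fun m => BgE s E L m T) c

variable {s : ℕ} {E : 𝒱 → Fin c → ℝ}

theorem BgE_zero (L : ℕ) (T : Fin L → 𝒱) : BgE s E L 0 T := by
  refine ⟨fun a => a.elim0, fun a => a.elim0, ?_⟩
  rw [sm_zero, pow_zero, Matrix.det_fin_zero, abs_one]

theorem rkE_le (L : ℕ) (T : Fin L → 𝒱) : rkE s E L T ≤ c := by
  classical
  unfold rkE
  exact Nat.findGreatest_le _

theorem rkE_spec (L : ℕ) (T : Fin L → 𝒱) : BgE s E L (rkE s E L T) T := by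
  classical
  unfold rkE
  exact Nat.findGreatest_spec (P := fun m => BgE s E L m T) (Nat.zero_le c) (BgE_zero L T)

theorem le_rkE {L m : ℕ} {T : Fin L → 𝒱} (hm : m ≤ c) (h : BgE s E L m T) :
    m ≤ rkE s E L T := by
  classical
  unfold rkE
  exact Nat.le_findGreatest hm h

theorem rkE_mono {L L' : ℕ} (hL : L ≤ L') (T : Fin L → 𝒱) (T' : Fin L' → 𝒱)
    (h : ∀ k, T k = T' (Fin.castLE hL k)) : rkE s E L T ≤ rkE s E L' T' := by
  refine le_rkE (rkE_le L T) ?_
  obtain ⟨κ, ρ, h1⟩ := rkE_spec (s := s) (E := E) L T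
  refine ⟨fun a => Fin.castLE hL (κ a), ρ, ?_⟩
  simp only [← h]
  exact h1

/-- **The covector of a list of vectors of rank less than `c`.** -/
theorem covE (L : ℕ) (T : Fin L → 𝒱) (h : rkE s E L T < c) :
    ∃ N : Fin c → ℝ, (∀ i, |N i| ≤ 1) ∧ (∃ i, |N i| = 1) ∧ ∀ v : 𝒱,
      rkE s E (L + 1) (Fin.snoc T v : Fin (L + 1) → 𝒱) = rkE s E L T →
      |∑ i, N i * E v i| ≤ (1 / 2) ^ (3 * s) := by
  classical
  have hsp := rkE_spec (s := s) (E := E) L T
  generalize hm : rkE s E L T = m at hsp h ⊢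
  obtain ⟨κ, ρ, h1⟩ := hsp
  obtain ⟨N, hN1, hN2, hN3⟩ := covector h (fun a => E (T (κ a))) ρ
    (by positivity : (0 : ℝ) < (1 / 2) ^ sm s m) h1
  refine ⟨N, hN1, hN2, ?_⟩
  intro v hr
  have h2 := hN3 (E v) ((1 / 2) ^ sm s (m + 1)) (by
    intro ρ'
    by_contra hcon
    push Not at hcon
    have h3 : BgE s E (L + 1) (m + 1) (Fin.snoc T v : Fin (L + 1) → 𝒱) := by
      refine ⟨Fin.snoc (fun a => Fin.castSucc (κ a)) (Fin.last L), ρ', ?_⟩
      have h4 : (Matrix.of fun a b => E ((Fin.snoc T v : Fin (L + 1) → 𝒱)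
          ((Fin.snoc (fun a => Fin.castSucc (κ a)) (Fin.last L) : Fin (m + 1) → Fin (L + 1)) a))
          (ρ' b)) =
          Matrix.of fun a b => (Fin.snoc (fun a => E (T (κ a))) (E v) :
            Fin (m + 1) → Fin c → ℝ) a (ρ' b) := by
        ext a b
        simp only [Matrix.of_apply]
        refine Fin.lastCases ?_ (fun a => ?_) a
        · rw [Fin.snoc_last, Fin.snoc_last, Fin.snoc_last]
        · rw [Fin.snoc_castSucc, Fin.snoc_castSucc, Fin.snoc_castSucc]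
      rw [h4]
      exact hcon.le
    have h4 := le_rkE (by omega : m + 1 ≤ c) h3
    omega)
  refine h2.trans ?_
  rw [div_le_iff₀ (by positivity), ← pow_add]
  exact pow_le_pow_of_le_one (by norm_num) (by norm_num) (by
    have := sm_succ s m
    omega)

end Rank

/-- Pigeonhole, step one. -/
theorem pig1 (f : ℕ → ℝ) (C : ℝ) (Rm : ℕ) (hRm : 1 ≤ Rm) (h0 : 0 ≤ f 0) (hC : f Rm ≤ C) :
    ∃ R < Rm, f (R + 1) - f R ≤ C / Rm := by
  by_contra hcon
  push Not at hcon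
  have h2 : ∑ r ∈ range Rm, C / (Rm : ℝ) < ∑ r ∈ range Rm, (f (r + 1) - f r) := by
    refine Finset.sum_lt_sum_of_nonempty ⟨0, Finset.mem_range.2 hRm⟩ fun r hr => ?_
    exact hcon r (Finset.mem_range.1 hr)
  rw [Finset.sum_const, Finset.card_range, nsmul_eq_mul, Finset.sum_range_sub] at h2
  have h3 : (Rm : ℝ) * (C / Rm) = C := by
    have : (0 : ℝ) < Rm := by exact_mod_cast hRm
    field_simp
  rw [h3] at h2
  linarith

/-- **The spanning dichotomy.** -/
theorem spn {Ω : Type} [Fintype Ω] {c : ℕ} (p : Ω → ℝ) (hp : IsLaw p) (E : Ω → Fin c → ℝ)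
    (s Rm : ℕ) (hRm : 1 ≤ Rm) (θ : ℝ)
    (h : ∀ R < Rm, Ex (pw p R) (fun w => in1 (BgE s E R c w)) ≤ θ) (hη : θ + c / Rm < 1) :
    ∃ N : Fin c → ℝ, (∀ i, |N i| ≤ 1) ∧ (∃ i, |N i| = 1) ∧
      1 - (θ + c / Rm) ≤ Pb p (fun ω => |∑ i, N i * E ω i| ≤ (1 / 2) ^ (3 * s)) := by
  classical
  set f : ℕ → ℝ := fun R => Ex (pw p R) (fun w => (rkE s E R w : ℝ)) with hf
  obtain ⟨R, hR, hfR⟩ := pig1 f c Rm hRm
    (Ex_nonneg (pw_nonneg hp.nonneg 0) fun w _ => Nat.cast_nonneg _) (by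
      have e1 : Ex (pw p Rm) (fun w => (rkE s E Rm w : ℝ)) ≤ Ex (pw p Rm) (fun _ => (c : ℝ)) :=
        Ex_mono (pw_nonneg hp.nonneg Rm) fun w _ => by
          have t2 : rkE s E Rm w ≤ c := rkE_le _ _
          exact_mod_cast t2
      rw [Ex_const (pw_sum hp.sum_one Rm)] at e1
      exact e1)
  have hcov : ∀ T : Fin R → Ω, ∃ N : Fin c → ℝ, rkE s E R T < c →
      (∀ i, |N i| ≤ 1) ∧ (∃ i, |N i| = 1) ∧ ∀ v : Ω,
      rkE s E (R + 1) (Fin.snoc T v : Fin (R + 1) → Ω) = rkE s E R T →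
      |∑ i, N i * E v i| ≤ (1 / 2) ^ (3 * s) := by
    intro T
    by_cases h : rkE s E R T < c
    · obtain ⟨N, hN⟩ := covE R T h
      exact ⟨N, fun _ => hN⟩
    · exact ⟨0, fun h' => absurd h' h⟩
  choose N hN using hcov
  -- the new sample
  have key : ∀ (T : Fin R → Ω) (v : Ω), 1 ≤ in1 (rkE s E R T < c ∧
      |∑ i, N T i * E v i| ≤ (1 / 2) ^ (3 * s)) + in1 (BgE s E R c T) +
      ((rkE s E (R + 1) (Fin.snoc T v : Fin (R + 1) → Ω) : ℝ) - rkE s E R T) := by
    intro T v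
    have i1 := in1_nonneg (rkE s E R T < c ∧ |∑ i, N T i * E v i| ≤ (1 / 2) ^ (3 * s))
    have i2 := in1_nonneg (BgE s E R c T)
    have hmon : rkE s E R T ≤ rkE s E (R + 1) (Fin.snoc T v : Fin (R + 1) → Ω) :=
      rkE_mono (Nat.le_succ R) _ _ (fun k => by
        have : Fin.castLE (Nat.le_succ R) k = Fin.castSucc k := rfl
        rw [this, Fin.snoc_castSucc])
    have hmon' : (rkE s E R T : ℝ) ≤ (rkE s E (R + 1) (Fin.snoc T v : Fin (R + 1) → Ω) : ℝ) := by
      exact_mod_cast hmon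
    by_cases k1 : rkE s E (R + 1) (Fin.snoc T v : Fin (R + 1) → Ω) = rkE s E R T
    swap
    · have k2 : rkE s E R T + 1 ≤ rkE s E (R + 1) (Fin.snoc T v : Fin (R + 1) → Ω) :=
        Nat.lt_of_le_of_ne hmon (Ne.symm k1)
      have k3 : (rkE s E R T : ℝ) + 1 ≤
          (rkE s E (R + 1) (Fin.snoc T v : Fin (R + 1) → Ω) : ℝ) := by exact_mod_cast k2
      linarith
    by_cases k2 : rkE s E R T < c
    · rw [in1_pos (A := rkE s E R T < c ∧ |∑ i, N T i * E v i| ≤ (1 / 2) ^ (3 * s))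
        ⟨k2, (hN T k2).2.2 v k1⟩]
      linarith
    · have k3 : rkE s E R T = c := le_antisymm (rkE_le _ _) (not_lt.1 k2)
      have k4 := rkE_spec (s := s) (E := E) R T
      rw [k3] at k4
      rw [in1_pos k4]
      linarith
  -- average
  have hfs : f (R + 1) = ∑ w, pw p R w * ∑ ω, p ω *
      (rkE s E (R + 1) (Fin.snoc w ω : Fin (R + 1) → Ω) : ℝ) := pw_snoc p R _
  have hsum : 1 - (θ + c / Rm) ≤ ∑ T, pw p R T * ∑ v, p v *
      in1 (rkE s E R T < c ∧ |∑ i, N T i * E v i| ≤ (1 / 2) ^ (3 * s)) := by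
    have e1 : ∀ T : Fin R → Ω, 1 ≤ (∑ v, p v *
        in1 (rkE s E R T < c ∧ |∑ i, N T i * E v i| ≤ (1 / 2) ^ (3 * s))) +
        in1 (BgE s E R c T) +
        ((∑ v, p v * (rkE s E (R + 1) (Fin.snoc T v : Fin (R + 1) → Ω) : ℝ)) -
          rkE s E R T) := by
      intro T
      have e2 : ∑ v, p v * (1 : ℝ) ≤ ∑ v, p v * (in1 (rkE s E R T < c ∧
          |∑ i, N T i * E v i| ≤ (1 / 2) ^ (3 * s)) + in1 (BgE s E R c T) +
          ((rkE s E (R + 1) (Fin.snoc T v : Fin (R + 1) → Ω) : ℝ) - rkE s E R T)) :=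
        Finset.sum_le_sum fun v _ => mul_le_mul_of_nonneg_left (key T v) (hp.nonneg v)
      simp only [mul_one, hp.sum_one, mul_add, mul_sub, Finset.sum_add_distrib,
        Finset.sum_sub_distrib] at e2
      rw [← Finset.sum_mul, ← Finset.sum_mul, hp.sum_one, one_mul, one_mul] at e2
      exact e2
    have e2 : ∑ T, pw p R T * (1 : ℝ) ≤ ∑ T, pw p R T * ((∑ v, p v *
        in1 (rkE s E R T < c ∧ |∑ i, N T i * E v i| ≤ (1 / 2) ^ (3 * s))) +
        in1 (BgE s E R c T) +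
        ((∑ v, p v * (rkE s E (R + 1) (Fin.snoc T v : Fin (R + 1) → Ω) : ℝ)) -
          rkE s E R T)) :=
      Finset.sum_le_sum fun T _ => mul_le_mul_of_nonneg_left (e1 T) (pw_nonneg hp.nonneg R T)
    simp only [mul_one, pw_sum hp.sum_one, mul_add, mul_sub, Finset.sum_add_distrib,
      Finset.sum_sub_distrib] at e2
    rw [← hfs] at e2
    have e3 := h R hR
    unfold Ex at e3
    have e4 : f R = ∑ T, pw p R T * (rkE s E R T : ℝ) := rfl
    rw [← e4] at e2
    linarith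
  obtain ⟨T, -, hT⟩ : ∃ T ∈ (Finset.univ : Finset (Fin R → Ω)), 0 < pw p R T ∧
      1 - (θ + c / Rm) ≤ ∑ v, p v *
      in1 (rkE s E R T < c ∧ |∑ i, N T i * E v i| ≤ (1 / 2) ^ (3 * s)) := by
    by_contra hcon
    push Not at hcon
    have e1 : ∑ T, pw p R T * ∑ v, p v *
        in1 (rkE s E R T < c ∧ |∑ i, N T i * E v i| ≤ (1 / 2) ^ (3 * s)) <
        ∑ T, pw p R T * (1 - (θ + c / Rm)) := by
      obtain ⟨T₀, hT₀⟩ : ∃ T₀, 0 < pw p R T₀ := by
        by_contra h'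
        push Not at h'
        have : ∑ T, pw p R T ≤ 0 := Finset.sum_nonpos fun T _ => h' T
        rw [pw_sum hp.sum_one] at this
        linarith
      refine Finset.sum_lt_sum (fun T _ => ?_) ⟨T₀, Finset.mem_univ _, ?_⟩
      · rcases (pw_nonneg hp.nonneg R T).eq_or_lt with h0 | h0
        · rw [← h0, zero_mul, zero_mul]
        · exact mul_le_mul_of_nonneg_left (hcon T (Finset.mem_univ _) h0).le h0.le
      · exact mul_lt_mul_of_pos_left (hcon T₀ (Finset.mem_univ _) hT₀) hT₀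
    rw [← Finset.sum_mul, pw_sum hp.sum_one, one_mul] at e1
    linarith
  have hlt : rkE s E R T < c := by
    by_contra hcon
    have e1 : ∑ v, p v * in1 (rkE s E R T < c ∧
        |∑ i, N T i * E v i| ≤ (1 / 2) ^ (3 * s)) = 0 := by
      refine Finset.sum_eq_zero fun v _ => ?_
      unfold in1
      rw [if_neg (fun h' => hcon h'.1), mul_zero]
    rw [e1] at hT
    linarith [hT.2]
  refine ⟨N T, (hN T hlt).1, (hN T hlt).2.1, hT.2.trans ?_⟩
  rw [Pb_eq_Ex]
  refine Ex_mono hp.nonneg fun v _ => ?_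
  unfold in1
  split_ifs with h1 h2 h2
  · exact le_rfl
  · exact absurd h1.2 h2
  · norm_num
  · exact le_rfl

end Pool.XK
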